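import Mathlib

set_option autoImplicit false

namespace Pool.Agent.Results.MP_f4bed7_co.TreeNet

open SimpleGraph

/-- Cheeger (edge-isoperimetric) constant; an edge with exactly one endpoint in `A` is counted
once, as the ordered pair (endpoint in `A`, endpoint outside `A`) -/
noncomputable def cheeger {W : Type} (H : SimpleGraph W) : ℝ :=
  sInf {r : ℝ | ∃ A : Finset W, A.Nonempty ∧
    r = (({p : W × W | p.1 ∈ A ∧ p.2 ∉ A ∧ H.Adj p.1 p.2}.ncard : ℕ) : ℝ) / (A.card : ℝ)}

/-- a `k`-net: maximal among sets whose points are pairwise at distance at least `k` -/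
def IsNet {V : Type} (G : SimpleGraph V) (k : ℕ) (S : Set V) : Prop :=
  Maximal (fun X : Set V => X.Pairwise (fun u v => k ≤ G.dist u v)) S

/-- the `k`-net graph on `S` -/
def netGraph {V : Type} (G : SimpleGraph V) (k : ℕ) (S : Set V) : SimpleGraph S where
  Adj u v := u ≠ v ∧ G.dist u v ≤ 2 * k
  symm := ⟨fun _ _ h => ⟨h.1.symm, by rw [SimpleGraph.dist_comm]; exact h.2⟩⟩
  loopless := ⟨fun _ h => h.1 rfl⟩

variable {V : Type} {T : SimpleGraph V}

theorem closer_unique (hT : T.IsTree) {a u u' w : V} (h : T.Adj u w) (h' : T.Adj u' w)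
    (e : T.dist a w = T.dist a u + 1) (e' : T.dist a w = T.dist a u' + 1) : u = u' := by
  obtain ⟨p, hp⟩ := hT.connected.exists_walk_length_eq_dist a u
  obtain ⟨q, hq⟩ := hT.connected.exists_walk_length_eq_dist a u'
  have h1 : (p.concat h).IsPath :=
    Walk.isPath_of_length_eq_dist _ (by rw [Walk.length_concat, hp, e])
  have h2 : (q.concat h').IsPath :=
    Walk.isPath_of_length_eq_dist _ (by rw [Walk.length_concat, hq, e'])
  have h3 : p.concat h = q.concat h' :=
    Subtype.mk.inj ((hT.isAcyclic.subsingleton_path a w).elim ⟨_, h1⟩ ⟨_, h2⟩)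
  have h4 := congrArg Walk.penultimate h3
  simpa using h4

theorem exists_closer (hT : T.IsTree) {v x : V} (h : x ≠ v) :
    ∃ y, T.Adj y x ∧ T.dist v x = T.dist v y + 1 := by
  obtain ⟨p, hp⟩ := hT.connected.exists_walk_length_eq_dist x v
  cases p with
  | nil => exact absurd rfl h
  | cons hadj q =>
    rename_i y
    refine ⟨y, hadj.symm, ?_⟩
    have h1 := T.dist_le q
    rw [Walk.length_cons] at hp
    have h2 := hT.dist_eq_dist_add_one_of_adj v hadj
    rw [SimpleGraph.dist_comm] at h1 hp
    omega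

theorem dist_adj_le (hT : T.IsTree) (a : V) {x y : V} (h : T.Adj x y) :
    T.dist a y ≤ T.dist a x + 1 := by
  have := hT.dist_eq_dist_add_one_of_adj a h
  omega

/-- `w` lies in the branch at `v` seen from `a` -/
def On (T : SimpleGraph V) (a v w : V) : Prop := T.dist a w = T.dist a v + T.dist v w

theorem cross (hT : T.IsTree) {a v x y : V} (hx : On T a v x) (hy : ¬ On T a v y)
    (h : T.Adj x y) : x = v ∧ T.dist a v = T.dist a y + 1 := by
  unfold On at hx hy
  have t1 : T.dist a y ≤ T.dist a v + T.dist v y := hT.connected.dist_triangle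
  have t2 := dist_adj_le hT v h
  have t3 := hT.dist_eq_dist_add_one_of_adj a h
  have e : T.dist a x = T.dist a y + 1 := by omega
  have hxv : x = v := by
    by_contra hne
    obtain ⟨y', h1, h2⟩ := exists_closer hT hne
    have t4 : T.dist a y' ≤ T.dist a v + T.dist v y' := hT.connected.dist_triangle
    have t5 := dist_adj_le hT a h1
    have : y = y' := closer_unique hT h.symm h1 e (by omega)
    subst this
    omega
  subst hxv
  exact ⟨rfl, e⟩

theorem F1walk (hT : T.IsTree) {a v : V} {r : ℕ} (hv : T.dist a v = r + 1) {b c : V}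
    (p : T.Walk b c) (hb : On T a v b) (hc : ¬ On T a v c) :
    T.dist a b + T.dist a c ≤ p.length + 2 * r := by
  induction p with
  | nil => exact absurd hb hc
  | cons h q ih =>
    rename_i x y z
    rw [Walk.length_cons]
    by_cases hy : On T a v y
    · have := ih hy hc
      have := dist_adj_le hT a h.symm
      omega
    · obtain ⟨e1, e2⟩ := cross hT hb hy h
      have t1 : T.dist a z ≤ T.dist a y + T.dist y z := hT.connected.dist_triangle
      have t2 := T.dist_le q
      rw [e1]
      omega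

theorem F1 (hT : T.IsTree) {a v : V} {r : ℕ} (hv : T.dist a v = r + 1) {b c : V}
    (hb : On T a v b) (hc : ¬ On T a v c) :
    T.dist a b + T.dist a c ≤ T.dist b c + 2 * r := by
  obtain ⟨p, hp⟩ := hT.connected.exists_walk_length_eq_dist b c
  rw [← hp]
  exact F1walk hT hv p hb hc

theorem F2 (hT : T.IsTree) {a v v' : V} {r : ℕ} (hv : T.dist a v = r + 1)
    (hv' : T.dist a v' = r + 1) {b : V} (hb : On T a v b) (hb' : On T a v' b) : v = v' := by
  have h1 : On T a v v' := by
    by_contra hc
    have := F1 hT hv hb hc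
    unfold On at hb'
    rw [SimpleGraph.dist_comm (u := b)] at this
    omega
  unfold On at h1
  exact hT.connected.dist_eq_zero_iff.mp (by omega)

section regular

variable {d : ℕ}

theorem nbr_finite (hd : 3 ≤ d) (hreg : ∀ v, (T.neighborSet v).ncard = d) (v : V) :
    (T.neighborSet v).Finite :=
  Set.finite_of_ncard_ne_zero (by rw [hreg]; omega)

theorem far_nbrs (hT : T.IsTree) (hd : 3 ≤ d) (hreg : ∀ v, (T.neighborSet v).ncard = d)
    (a x : V) : ∃ F : Finset V, (∀ y ∈ F, T.Adj x y ∧ T.dist a y = T.dist a x + 1) ∧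
      d - 1 ≤ F.card := by
  classical
  let N := (nbr_finite hd hreg x).toFinset
  have hN : N.card = d := by rw [← hreg x, Set.ncard_eq_toFinset_card _ (nbr_finite hd hreg x)]
  have h1 := Finset.card_filter_add_card_filter_not (s := N)
    (fun y => T.dist a y = T.dist a x + 1)
  have h2 : (N.filter (fun y => ¬ T.dist a y = T.dist a x + 1)).card ≤ 1 := by
    rw [Finset.card_le_one]
    intro y hy y' hy'
    simp only [N, Finset.mem_filter, Set.Finite.mem_toFinset, mem_neighborSet] at hy hy'
    have t1 := hT.dist_eq_dist_add_one_of_adj a hy.1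
    have t2 := hT.dist_eq_dist_add_one_of_adj a hy'.1
    exact closer_unique hT (a := a) hy.1.symm hy'.1.symm (by omega) (by omega)
  refine ⟨N.filter (fun y => T.dist a y = T.dist a x + 1), ?_, by omega⟩
  intro y hy
  simpa [N] using hy

theorem sphere (hT : T.IsTree) (hd : 3 ≤ d) (hreg : ∀ v, (T.neighborSet v).ncard = d)
    (a : V) (j : ℕ) : ∃ F : Finset V, (∀ y ∈ F, T.dist a y = j + 1) ∧
      d * (d - 1) ^ j ≤ F.card := by
  classical
  induction j with
  | zero =>
    refine ⟨(nbr_finite hd hreg a).toFinset, ?_, ?_⟩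
    · intro y hy
      simp only [Set.Finite.mem_toFinset, mem_neighborSet] at hy
      exact SimpleGraph.dist_eq_one_iff_adj.mpr hy
    · rw [← Set.ncard_eq_toFinset_card _ (nbr_finite hd hreg a), hreg]
      simp
  | succ j ih =>
    obtain ⟨F, hF, hc⟩ := ih
    choose N hN hNc using far_nbrs hT hd hreg a
    refine ⟨F.biUnion N, ?_, ?_⟩
    · intro y hy
      rw [Finset.mem_biUnion] at hy
      obtain ⟨x, hx, hy⟩ := hy
      rw [(hN x y hy).2, hF x hx]
    · rw [Finset.card_biUnion]
      · have h1 := Finset.card_nsmul_le_sum F (fun x => (N x).card) (d - 1) (fun x _ => hNc x)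
        rw [smul_eq_mul] at h1
        rw [pow_succ, ← mul_assoc]
        exact (Nat.mul_le_mul_right _ hc).trans h1
      · intro x _ x' _ hne
        rw [Function.onFun, Finset.disjoint_left]
        intro y h1 h2
        exact hne (closer_unique hT (hN x y h1).1 (hN x' y h2).1 (hN x y h1).2 (hN x' y h2).2)

theorem extend (hT : T.IsTree) (hd : 3 ≤ d) (hreg : ∀ v, (T.neighborSet v).ncard = d)
    (a v : V) (t : ℕ) : ∃ w, On T a v w ∧ T.dist v w = t := by
  induction t with
  | zero => exact ⟨v, by simp [On], by simp⟩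
  | succ t ih =>
    obtain ⟨w, h1, h2⟩ := ih
    obtain ⟨F, hF, hc⟩ := far_nbrs hT hd hreg a w
    obtain ⟨y, hy⟩ : F.Nonempty := Finset.card_pos.mp (by omega)
    obtain ⟨h3, h4⟩ := hF y hy
    have t1 : T.dist a y ≤ T.dist a v + T.dist v y := hT.connected.dist_triangle
    have t2 := dist_adj_le hT v h3
    unfold On at h1 ⊢
    exact ⟨y, by omega, by omega⟩

theorem ball_finite (hT : T.IsTree) (hd : 3 ≤ d) (hreg : ∀ v, (T.neighborSet v).ncard = d)
    (a : V) (n : ℕ) : {w | T.dist a w ≤ n}.Finite := by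
  induction n with
  | zero =>
    apply (Set.finite_singleton a).subset
    intro w hw
    exact (hT.connected.dist_eq_zero_iff.mp (Nat.le_zero.mp hw)).symm
  | succ n ih =>
    apply ((Set.finite_singleton a).union (ih.biUnion (fun x _ => nbr_finite hd hreg x))).subset
    intro w hw
    by_cases h : w = a
    · exact Or.inl h
    · obtain ⟨y, h1, h2⟩ := exists_closer hT h
      right
      simp only [Set.mem_iUnion]
      refine ⟨y, ?_, h1⟩
      change T.dist a w ≤ n + 1 at hw
      change T.dist a y ≤ n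
      omega

end regular

theorem nonfree (hT : T.IsTree) (r : ℕ) (o : V) (A : Finset V) :
    (∀ a ∈ A, ∀ b ∈ A, a ≠ b → 2 * r + 1 ≤ T.dist a b) →
    ∀ P : Finset (V × V),
      (∀ p ∈ P, p.1 ∈ A ∧ T.dist p.1 p.2 = r + 1 ∧ ∃ b ∈ A, On T p.1 p.2 b) →
      P.card ≤ 2 * A.card := by
  classical
  induction A using Finset.induction_on_max_value (fun x => T.dist o x) with
  | empty =>
    intro _ P hP
    rcases P.eq_empty_or_nonempty with h | ⟨p, hp⟩
    · simp [h]
    · exact absurd (hP p hp).1 (by simp)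
  | insert b A hb hmax ih =>
    intro hsep P hP
    have h1 := Finset.card_filter_add_card_filter_not (s := P) (fun p => p.1 = b)
    have h2 := Finset.card_filter_add_card_filter_not (s := P.filter (fun p => ¬ p.1 = b))
      (fun p => ∃ c ∈ A, On T p.1 p.2 c)
    have c1 : (P.filter (fun p => p.1 = b)).card ≤ 1 := by
      have key : ∀ p ∈ P.filter (fun p => p.1 = b), p.1 = b ∧ T.dist b p.2 = r + 1 ∧
          On T b p.2 o := by
        intro p hp
        rw [Finset.mem_filter] at hp
        obtain ⟨_, e2, c, hc, e3⟩ := hP p hp.1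
        rw [hp.2] at e2 e3
        refine ⟨hp.2, e2, ?_⟩
        by_contra hcon
        have f := F1 hT e2 e3 hcon
        have hcb : b ≠ c := by
          rintro rfl
          unfold On at e3
          rw [SimpleGraph.dist_self] at e3
          omega
        have hcA : c ∈ A := by
          rcases Finset.mem_insert.mp hc with h | h
          · exact absurd h.symm hcb
          · exact h
        have g1 := hsep b (Finset.mem_insert_self _ _) c hc hcb
        have g2 := hmax c hcA
        rw [SimpleGraph.dist_comm (u := b) (v := o), SimpleGraph.dist_comm (u := c) (v := o)] at f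
        omega
      rw [Finset.card_le_one]
      intro p hp q hq
      obtain ⟨p1, p2, p3⟩ := key p hp
      obtain ⟨q1, q2, q3⟩ := key q hq
      exact Prod.ext (p1.trans q1.symm) (F2 hT p2 q2 p3 q3)
    have c2 : ((P.filter (fun p => ¬ p.1 = b)).filter
        (fun p => ∃ c ∈ A, On T p.1 p.2 c)).card ≤ 2 * A.card := by
      apply ih (fun x hx y hy => hsep x (Finset.mem_insert_of_mem hx) y
        (Finset.mem_insert_of_mem hy))
      intro p hp
      simp only [Finset.mem_filter] at hp
      obtain ⟨e1, e2, _⟩ := hP p hp.1.1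
      refine ⟨?_, e2, hp.2⟩
      rcases Finset.mem_insert.mp e1 with h | h
      · exact absurd h hp.1.2
      · exact h
    have c3 : ((P.filter (fun p => ¬ p.1 = b)).filter
        (fun p => ¬ ∃ c ∈ A, On T p.1 p.2 c)).card ≤ 1 := by
      have key : ∀ p ∈ (P.filter (fun p => ¬ p.1 = b)).filter
          (fun p => ¬ ∃ c ∈ A, On T p.1 p.2 c), p.1 ∈ A ∧ T.dist p.1 p.2 = r + 1 ∧
          On T p.1 p.2 b ∧ ∀ c ∈ A, ¬ On T p.1 p.2 c := by
        intro p hp
        simp only [Finset.mem_filter] at hp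
        obtain ⟨e1, e2, c, hc, e3⟩ := hP p hp.1.1
        refine ⟨?_, e2, ?_, fun c hc h => hp.2 ⟨c, hc, h⟩⟩
        · rcases Finset.mem_insert.mp e1 with h | h
          · exact absurd h hp.1.2
          · exact h
        · rcases Finset.mem_insert.mp hc with h | h
          · rw [← h]; exact e3
          · exact absurd ⟨c, h, e3⟩ hp.2
      rw [Finset.card_le_one]
      intro p hp q hq
      obtain ⟨p1, p2, p3, p4⟩ := key p hp
      obtain ⟨q1, q2, q3, q4⟩ := key q hq
      have e : p.1 = q.1 := by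
        by_contra hne
        have f1 := F1 hT p2 p3 (p4 _ q1)
        have f2 := F1 hT q2 q3 (q4 _ p1)
        have g := hsep _ (Finset.mem_insert_of_mem p1) _ (Finset.mem_insert_of_mem q1) hne
        rw [SimpleGraph.dist_comm (u := b)] at f1 f2
        rw [SimpleGraph.dist_comm (u := q.1) (v := p.1)] at f2
        omega
      rw [← e] at q2 q3
      exact Prod.ext e (F2 hT p2 q2 p3 q3)
    rw [Finset.card_insert_of_notMem hb]
    omega

theorem net_cover {k : ℕ} (hk : 1 ≤ k) {S : Set V} (hS : IsNet T k S) (w : V) :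
    ∃ s ∈ S, T.dist w s < k := by
  by_contra hcon
  push Not at hcon
  have h1 : (insert w S).Pairwise (fun u v => k ≤ T.dist u v) := by
    rw [Set.pairwise_insert]
    refine ⟨hS.prop, fun b hb _ => ⟨hcon b hb, ?_⟩⟩
    rw [SimpleGraph.dist_comm]
    exact hcon b hb
  have h2 : w ∈ S := hS.le_of_ge h1 (Set.subset_insert _ _) (Set.mem_insert _ _)
  have := hcon w h2
  rw [SimpleGraph.dist_self] at this
  omega

theorem branch_point {d : ℕ} (hT : T.IsTree) (hd : 3 ≤ d)
    (hreg : ∀ v, (T.neighborSet v).ncard = d) {k : ℕ} (hk : 1 ≤ k) {S : Set V}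
    (hS : IsNet T k S) {a v : V} (ha : a ∈ S) (hv : T.dist a v = (k - 1) / 2 + 1) :
    ∃ s ∈ S, On T a v s ∧ T.dist a s ≤ 2 * k := by
  obtain ⟨w, h1, h2⟩ := extend hT hd hreg a v (k - ((k - 1) / 2 + 1))
  obtain ⟨s, hs, h3⟩ := net_cover hk hS w
  have h4 : T.dist a w = k := by
    unfold On at h1
    omega
  have h5 : a ≠ s := by
    rintro rfl
    rw [SimpleGraph.dist_comm] at h3
    omega
  have h6 : k ≤ T.dist a s := hS.prop ha hs h5
  have t1 : T.dist a s ≤ T.dist a w + T.dist w s := hT.connected.dist_triangle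
  refine ⟨s, hs, ?_, by omega⟩
  by_contra hcon
  have := F1 hT hv h1 hcon
  omega

theorem result (V : Type) (T : SimpleGraph V) (d : ℕ) (hd : 3 ≤ d) (hT : T.IsTree)
    (hreg : ∀ v, (T.neighborSet v).ncard = d) (k : ℕ) (hk : 1 ≤ k) (S : Set V)
    (hS : IsNet T k S) :
    (d : ℝ) * ((d : ℝ) - 1) ^ ((k - 1) / 2) - 2 ≤ cheeger (netGraph T k S) := by
  classical
  obtain ⟨o⟩ := hT.connected.nonempty
  apply le_csInf
  · obtain ⟨s, hs, _⟩ := net_cover hk hS o
    exact ⟨_, {⟨s, hs⟩}, by simp, rfl⟩
  rintro _ ⟨A, hA, rfl⟩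
  have hpos : (0 : ℝ) < A.card := by exact_mod_cast hA.card_pos
  rw [le_div_iff₀ hpos]
  set r := (k - 1) / 2 with hr
  have hfin : {p : S × S | p.1 ∈ A ∧ p.2 ∉ A ∧ (netGraph T k S).Adj p.1 p.2}.Finite := by
    have h0 : ∀ u : S, {v : S | T.dist u v ≤ 2 * k}.Finite := fun u =>
      (ball_finite hT hd hreg u (2 * k)).preimage Subtype.val_injective.injOn
    have h1 : (⋃ u ∈ (A : Set S), (fun v => (u, v)) '' {v : S | T.dist u v ≤ 2 * k}).Finite :=
      A.finite_toSet.biUnion (fun u _ => (h0 u).image _)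
    apply h1.subset
    rintro ⟨u, v⟩ ⟨h1, _, h3⟩
    simp only [Set.mem_iUnion]
    exact ⟨u, h1, v, h3.2, rfl⟩
  choose F hF hFc using fun a => sphere hT hd hreg a r
  let A' : Finset V := A.map (Function.Embedding.subtype _)
  have hA' : A'.card = A.card := Finset.card_map _
  have memA' : ∀ x ∈ A', ∃ h : x ∈ S, (⟨x, h⟩ : S) ∈ A := by
    intro x hx
    simp only [A', Finset.mem_map, Function.Embedding.subtype_apply] at hx
    obtain ⟨y, hy, rfl⟩ := hx
    exact ⟨y.2, hy⟩
  let D : Finset (V × V) := A'.biUnion (fun a => (F a).image (fun v => (a, v)))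
  have memD : ∀ p ∈ D, p.1 ∈ A' ∧ T.dist p.1 p.2 = r + 1 := by
    intro p hp
    simp only [D, Finset.mem_biUnion, Finset.mem_image] at hp
    obtain ⟨a, ha, v, hv, rfl⟩ := hp
    exact ⟨ha, hF a v hv⟩
  have cD : A.card * (d * (d - 1) ^ r) ≤ D.card := by
    rw [Finset.card_biUnion, ← hA', ← smul_eq_mul]
    · apply Finset.card_nsmul_le_sum
      intro a _
      rw [Finset.card_image_of_injective _ (fun v w h => (Prod.mk.inj h).2)]
      exact hFc a
    · intro x _ x' _ hne
      rw [Function.onFun, Finset.disjoint_left]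
      intro p h1 h2
      simp only [Finset.mem_image] at h1 h2
      obtain ⟨v, _, rfl⟩ := h1
      obtain ⟨v', _, h⟩ := h2
      exact hne (Prod.mk.inj h).1.symm
  have h1 := Finset.card_filter_add_card_filter_not (s := D)
    (fun p => ∃ b ∈ A', On T p.1 p.2 b)
  have h2 : (D.filter (fun p => ∃ b ∈ A', On T p.1 p.2 b)).card ≤ 2 * A'.card := by
    apply nonfree hT r o A'
    · intro a ha b hb hne
      have : k ≤ T.dist a b := hS.prop (memA' a ha).1 (memA' b hb).1 hne
      omega
    · intro p hp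
      rw [Finset.mem_filter] at hp
      exact ⟨(memD p hp.1).1, (memD p hp.1).2, hp.2⟩
  have h3 : (D.filter (fun p => ¬ ∃ b ∈ A', On T p.1 p.2 b)).card ≤ hfin.toFinset.card := by
    have key : ∀ p ∈ D.filter (fun p => ¬ ∃ b ∈ A', On T p.1 p.2 b), ∃ q ∈ hfin.toFinset,
        (q.1 : V) = p.1 ∧ T.dist p.1 p.2 = r + 1 ∧ On T p.1 p.2 q.2 := by
      intro p hp
      rw [Finset.mem_filter] at hp
      obtain ⟨e1, e2⟩ := memD p hp.1
      obtain ⟨h, hA1⟩ := memA' _ e1
      obtain ⟨s, hs, e3, e4⟩ := branch_point hT hd hreg hk hS h e2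
      have hsA : (⟨s, hs⟩ : S) ∉ A := by
        intro hc
        apply hp.2
        refine ⟨s, ?_, e3⟩
        simp only [A', Finset.mem_map, Function.Embedding.subtype_apply]
        exact ⟨_, hc, rfl⟩
      refine ⟨(⟨p.1, h⟩, ⟨s, hs⟩), ?_, rfl, e2, e3⟩
      simp only [Set.Finite.mem_toFinset, Set.mem_ofPred_eq]
      refine ⟨hA1, hsA, ?_, e4⟩
      intro hc
      rw [hc] at hA1
      exact hsA hA1
    apply Finset.card_le_card_of_forall_subsingleton
      (fun p q => (q.1 : V) = p.1 ∧ T.dist p.1 p.2 = r + 1 ∧ On T p.1 p.2 q.2)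
    · intro p hp
      obtain ⟨q, hq, h⟩ := key p hp
      exact ⟨q, hq, h⟩
    · intro q _ p hp p' hp'
      obtain ⟨_, a1, a2, a3⟩ := hp
      obtain ⟨_, b1, b2, b3⟩ := hp'
      have e : p.1 = p'.1 := a1.symm.trans b1
      rw [← e] at b2 b3
      exact Prod.ext e (F2 hT a2 b2 a3 b3)
  rw [Set.ncard_eq_toFinset_card _ hfin]
  have h4 : A.card * (d * (d - 1) ^ r) ≤ hfin.toFinset.card + 2 * A.card := by omega
  have h5 : ((A.card * (d * (d - 1) ^ r) : ℕ) : ℝ) ≤ ((hfin.toFinset.card + 2 * A.card : ℕ) : ℝ) :=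
    Nat.cast_le.mpr h4
  push_cast [Nat.cast_sub (by omega : 1 ≤ d)] at h5
  linarith

end Pool.Agent.Results.MP_f4bed7_co.TreeNet
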